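import Mathlib
import Pool.Agent.KS6_43.TH.Main

/-!
# MP_5f8894_co: the `r`-ASC index of almost every graph is `2 r - 3`, for all `r ≥ 2` at once
-/

set_option autoImplicit false

open SimpleGraph Filter Topology

namespace Pool.Agent.Results.MP_5f8894_co.AllRadii

/-- The eccentricity of `u`: the largest distance from `u` to a vertex. -/
noncomputable def ecc {W : Type} [Fintype W] (H : SimpleGraph W) (u : W) : ℕ :=
  Finset.univ.sup fun v => H.dist u v

/-- `H` is an `r`-ASC graph: it is connected, its radius (the least eccentricity) is `r`, and exactly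
two of its vertices have eccentricity different from `r`. -/
def IsASC {W : Type} [Fintype W] (r : ℕ) (H : SimpleGraph W) : Prop :=
  H.Connected ∧ (∀ u, r ≤ ecc H u) ∧ (∃ u, ecc H u = r) ∧ {u | ecc H u ≠ r}.ncard = 2

/-- The `r`-ASC index `θ_r(G)`: the least `k` such that some `r`-ASC graph with `|V(G)| + k`
vertices contains `G` as an induced subgraph. -/
noncomputable def theta {V : Type} [Fintype V] (r : ℕ) (G : SimpleGraph V) : ℕ :=
  sInf {k | ∃ (W : Type) (_ : Fintype W) (H : SimpleGraph W),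
    Fintype.card W = Fintype.card V + k ∧ IsASC r H ∧ Nonempty (G ↪g H)}

/-- `G` is connected and has diameter two. -/
def DiamTwo {V : Type} (G : SimpleGraph V) : Prop :=
  G.Connected ∧ (∀ x y, G.dist x y ≤ 2) ∧ ∃ x y, G.dist x y = 2

/-- (1), (2) The proportion of the graphs with vertices `1, …, n` for which `θ_r(G) = 2 r - 3` for
all `r ≥ 2` (in particular `θ_3(G) = 3`) is at least `1 - 8 n³ (7/8)^(n-3)` and tends to one.
(3) Every graph of diameter two has `θ_r(G) ∈ {2 r - 3, 2 r - 2}` for all `r ≥ 2`. -/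
theorem result :
    (∀ n : ℕ, 3 ≤ n → (1 - 8 * (n : ℝ) ^ 3 * (7 / 8) ^ (n - 3)) *
      (Nat.card (SimpleGraph (Fin n)) : ℝ) ≤
      ({G : SimpleGraph (Fin n) | ∀ r, 2 ≤ r → theta r G = 2 * r - 3}.ncard : ℝ)) ∧
    Tendsto (fun n : ℕ =>
      ({G : SimpleGraph (Fin n) | ∀ r, 2 ≤ r → theta r G = 2 * r - 3}.ncard : ℝ) /
        (Nat.card (SimpleGraph (Fin n)) : ℝ)) atTop (𝓝 1) ∧
    ∀ (V : Type) [Fintype V] (G : SimpleGraph V), DiamTwo G → ∀ r : ℕ, 2 ≤ r →
      2 * r - 3 ≤ theta r G ∧ theta r G ≤ 2 * r - 2 := by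
  refine ⟨fun n hn => ?_, ?_, ?_⟩
  · have h1 : {G : SimpleGraph (Fin n) | ¬ Pool.Agent.R451.Ext3.Good G}.ncard +
        {G : SimpleGraph (Fin n) | ∀ r, 2 ≤ r → theta r G = 2 * r - 3}.ncard ≥
        Nat.card (SimpleGraph (Fin n)) := by
      rw [← Set.ncard_univ, ge_iff_le]
      refine (Set.ncard_le_ncard (fun G _ => ?_) (Set.toFinite _)).trans (Set.ncard_union_le _ _)
      by_cases hG : Pool.Agent.R451.Ext3.Good G
      · exact Or.inr fun r hr => Pool.Agent.KS6_43.TH.theta_good hn hG hr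
      · exact Or.inl hG
    have h2 := Pool.Agent.R451.Ext3.not_good_le hn
    have h1r : (Nat.card (SimpleGraph (Fin n)) : ℝ) ≤
        ({G : SimpleGraph (Fin n) | ¬ Pool.Agent.R451.Ext3.Good G}.ncard : ℝ) +
        ({G : SimpleGraph (Fin n) | ∀ r, 2 ≤ r → theta r G = 2 * r - 3}.ncard : ℝ) := by
      exact_mod_cast h1
    have h2r : (8 : ℝ) ^ (n - 3) *
        ({G : SimpleGraph (Fin n) | ¬ Pool.Agent.R451.Ext3.Good G}.ncard : ℝ) ≤
        (n : ℝ) ^ 3 * 8 * 7 ^ (n - 3) * (Nat.card (SimpleGraph (Fin n)) : ℝ) := by exact_mod_cast h2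
    have h3 : ({G : SimpleGraph (Fin n) | ¬ Pool.Agent.R451.Ext3.Good G}.ncard : ℝ) ≤
        8 * (n : ℝ) ^ 3 * (7 / 8 : ℝ) ^ (n - 3) * (Nat.card (SimpleGraph (Fin n)) : ℝ) := by
      have h8 : (0 : ℝ) < 8 ^ (n - 3) := by positivity
      refine le_of_mul_le_mul_left (h2r.trans (le_of_eq ?_)) h8
      rw [div_pow]
      field_simp
    linarith
  · exact Pool.Agent.R451.Ext3.almostEvery_of_good
      (fun _ G => ∀ r, 2 ≤ r → theta r G = 2 * r - 3)
      fun n hn G hG r hr => Pool.Agent.KS6_43.TH.theta_good hn hG hr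
  · rintro V _ G ⟨hc, h2, w, x0, hw⟩ r hr
    have d2 : Pool.Agent.KS6_43.TH.Two G := by
      intro x y
      have hxy := h2 x y
      rcases (by omega : G.dist x y = 0 ∨ G.dist x y = 1 ∨ G.dist x y = 2) with h | h | h
      · exact Or.inl ((hc.dist_eq_zero_iff).mp h)
      · exact Or.inr (Or.inl (dist_eq_one_iff_adj.mp h))
      · obtain ⟨z, h3, h4⟩ := Pool.Agent.KS6_43.TH.geod hc x y 1 (by omega)
        exact Or.inr (Or.inr ⟨z, dist_eq_one_iff_adj.mp h3, dist_eq_one_iff_adj.mp (by omega)⟩)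
    have hne : w ≠ x0 := by
      rintro rfl
      rw [SimpleGraph.dist_self] at hw
      omega
    have hadj : ¬ G.Adj w x0 := by
      intro h
      rw [dist_eq_one_iff_adj.mpr h] at hw
      omega
    exact Pool.Agent.KS6_43.TH.theta_two d2 hne hadj hr

end Pool.Agent.Results.MP_5f8894_co.AllRadii
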